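import Pool.Agent.H14.Flat.Tau
import Pool.Agent.H65.Flat.Srf
import Pool.Agent.H66.Flat.Disp

/-!
# The deck group on the phase space (helper14)
-/

namespace H14.Flat

open MeasureTheory Set Filter H65.Flat
open scoped UpperHalfPlane MatrixGroups ENNReal Topology

/-- the group of all lifts of elements of `Γ` -/
noncomputable def deck (Γ : Subgroup SL(2, ℝ)) : Subgroup (Equiv.Perm T) where
  carrier := {τ | ∃ g ∈ Γ, ∃ k : ℤ, ∀ v, τ v = tau g k v}
  mul_mem' := by
    rintro a b ⟨g, hg, k, h1⟩ ⟨h, hh, l, h2⟩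
    obtain ⟨m, hm⟩ := tau_tau g h k l
    exact ⟨g * h, mul_mem hg hh, m, fun v => by rw [Equiv.Perm.mul_apply, h2, h1, hm]⟩
  one_mem' := ⟨1, one_mem _, 0, fun v => by rw [tau_one]; simp [rot]⟩
  inv_mem' := by
    rintro a ⟨g, hg, k, h1⟩
    obtain ⟨m, h2, h3⟩ := tau_inv g k
    refine ⟨g⁻¹, inv_mem hg, m, fun v => ?_⟩
    rw [Equiv.Perm.inv_def, Equiv.symm_apply_eq, h1, h3]

lemma mem_deck {Γ : Subgroup SL(2, ℝ)} {τ : Equiv.Perm T} :
    τ ∈ deck Γ ↔ ∃ g ∈ Γ, ∃ k : ℤ, ∀ v, τ v = tau g k v := Iff.rfl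

lemma exists_mem_deck {Γ : Subgroup SL(2, ℝ)} {g : SL(2, ℝ)} (hg : g ∈ Γ) (k : ℤ) :
    ∃ τ ∈ deck Γ, ∀ v, τ v = tau g k v := by
  obtain ⟨m, h2, h3⟩ := tau_inv g k
  exact ⟨⟨tau g k, tau g⁻¹ m, h2, h3⟩, ⟨g, hg, k, fun _ => rfl⟩, fun _ => rfl⟩

/-- Jacobi fields only depend on the curvature -/
lemma jac_inv (P : Pre2) {v w : T}
    (h : ∀ y, curv P.U (bp (P.Φ y w)) = curv P.U (bp (P.Φ y v))) (y : ℝ) :
    P.J w y = P.J v y ∧ P.J1 w y = P.J1 v y := by
  have c1 : ∀ y, P.J w y * P.J21 v y - P.J1 w y * P.J2 v y = 1 := by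
    have hd : ∀ y, HasDerivAt (fun y => P.J w y * P.J21 v y - P.J1 w y * P.J2 v y) 0 y := by
      intro y
      refine (((P.J_deriv w y).mul (P.J21_deriv v y)).sub
        ((P.J1_deriv w y).mul (P.J2_deriv v y))).congr_deriv ?_
      rw [h y]; ring
    intro y
    have h1 := is_const_of_deriv_eq_zero
      (f := fun y => P.J w y * P.J21 v y - P.J1 w y * P.J2 v y)
      (fun t => (hd t).differentiableAt) (fun t => (hd t).deriv) y 0
    rw [h1, P.J_zero, P.J21_zero, P.J2_zero]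
    ring
  have c2 : ∀ y, P.J w y * P.J1 v y - P.J1 w y * P.J v y = 0 := by
    have hd : ∀ y, HasDerivAt (fun y => P.J w y * P.J1 v y - P.J1 w y * P.J v y) 0 y := by
      intro y
      refine (((P.J_deriv w y).mul (P.J1_deriv v y)).sub
        ((P.J1_deriv w y).mul (P.J_deriv v y))).congr_deriv ?_
      rw [h y]; ring
    intro y
    have h1 := is_const_of_deriv_eq_zero
      (f := fun y => P.J w y * P.J1 v y - P.J1 w y * P.J v y)
      (fun t => (hd t).differentiableAt) (fun t => (hd t).deriv) y 0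
    rw [h1, P.J_zero, P.J1_zero, P.J1_zero]
    ring
  have w0 := P.wronski v y
  have e1 := c1 y
  have e2 := c2 y
  constructor
  · linear_combination (-P.J w y) * w0 + P.J v y * e1 - P.J2 v y * e2
  · linear_combination (-P.J1 w y) * w0 + P.J1 v y * e1 - P.J21 v y * e2

lemma continuous_zz : Continuous zz := by
  have : Continuous fun p : ℝ × ℝ => ((zz p : ℍ) : ℂ) := by
    have e : (fun p : ℝ × ℝ => ((zz p : ℍ) : ℂ)) =
        fun p => (p.1 : ℂ) + (Real.exp p.2 : ℂ) * Complex.I := by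
      funext p
      apply Complex.ext <;> simp [zz, Complex.exp_ofReal_re]
    rw [e]; fun_prop
  exact UpperHalfPlane.isEmbedding_coe.continuous_iff.2 this

lemma continuous_base : Continuous base := continuous_zz.comp bp_smooth.continuous

lemma countable_of_discrete (Γ : Subgroup SL(2, ℝ)) (h : DiscreteTopology Γ) : Countable Γ := by
  have h2 : SecondCountableTopology (Matrix (Fin 2) (Fin 2) ℝ) :=
    inferInstanceAs (SecondCountableTopology (Fin 2 → Fin 2 → ℝ))
  have h3 : SecondCountableTopology SL(2, ℝ) := by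
    have : Topology.IsInducing (fun g : SL(2, ℝ) => (g : Matrix (Fin 2) (Fin 2) ℝ)) := ⟨rfl⟩
    exact this.secondCountableTopology
  exact TopologicalSpace.separableSpace_iff_countable.1 inferInstance

lemma deck_countable (Γ : Subgroup SL(2, ℝ)) (h : DiscreteTopology Γ) : Countable (deck Γ) := by
  have := countable_of_discrete Γ h
  have hf : ∀ τ : deck Γ, ∃ gk : Γ × ℤ, ∀ v, (τ : Equiv.Perm T) v = tau gk.1 gk.2 v := by
    rintro ⟨τ, g, hg, k, hk⟩
    exact ⟨(⟨g, hg⟩, k), hk⟩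
  choose f hf using hf
  have hinj : Function.Injective f := by
    intro a b hab
    apply Subtype.ext
    ext1 v
    rw [hf, hf, hab]
  exact hinj.countable

/-- a compact set meeting every orbit -/
lemma deck_cocompact (S : Srf) : ∃ C : Set T, IsCompact C ∧ ∀ v, ∃ τ ∈ deck S.Γ, τ v ∈ C := by
  obtain ⟨C, hC, hcov⟩ := S.cocompact
  have hcont : Continuous fun q : ℍ × ℝ => ((q.1.re, Real.log q.1.im, q.2) : T) := by
    refine (UpperHalfPlane.continuous_re.comp continuous_fst).prodMk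
      (Continuous.prodMk ?_ continuous_snd)
    exact (UpperHalfPlane.continuous_im.comp continuous_fst).log fun q => q.1.im_pos.ne'
  refine ⟨(fun q : ℍ × ℝ => ((q.1.re, Real.log q.1.im, q.2) : T)) ''
    (C ×ˢ Icc 0 (2 * Real.pi)), (hC.prod isCompact_Icc).image hcont, fun v => ?_⟩
  obtain ⟨g, hg, hgC⟩ := hcov (base v)
  set θ : ℝ := v.2.2 + ang g (bp v) with hθ
  obtain ⟨τ, hτ, h⟩ := exists_mem_deck hg (-⌊θ / (2 * Real.pi)⌋)
  refine ⟨τ, hτ, ?_⟩
  rw [h]
  refine ⟨(g • base v, θ + 2 * Real.pi * ((-⌊θ / (2 * Real.pi)⌋ : ℤ) : ℝ)), ⟨hgC, ?_⟩, ?_⟩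
  · have h1 := Int.floor_le (θ / (2 * Real.pi))
    have h2 := Int.lt_floor_add_one (θ / (2 * Real.pi))
    have hpi : (0 : ℝ) < 2 * Real.pi := by positivity
    rw [le_div_iff₀ hpi] at h1
    rw [div_lt_iff₀ hpi] at h2
    constructor
    · push_cast; linarith
    · push_cast; linarith
  · have h3 : zz (mob g (bp v)) = g • base v := zz_mob g (bp v)
    have h4 : (g • base v).re = (mob g (bp v)).1 := by rw [← h3]; rfl
    have h5 : Real.log (g • base v).im = (mob g (bp v)).2 := by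
      rw [← h3]; exact Real.log_exp _
    simp only [h4, h5, tau, hθ]

lemma deck_triv {τ : Equiv.Perm T} {g : SL(2, ℝ)} {k : ℤ}
    (h : ∀ v, τ v = tau g k v) (hg : ∀ z : ℍ, g • z = z) :
    ∃ m : ℤ, ∀ v, τ v = rot (2 * Real.pi * m) v := by
  obtain ⟨m, hm⟩ := tau_triv hg k
  exact ⟨m, fun v => by rw [h, hm]⟩

/-- wandering neighbourhoods -/
lemma deck_wander (S : Srf) (v : T) : ∃ O : Set T, IsOpen O ∧ v ∈ O ∧
    ∀ τ ∈ deck S.Γ, τ ≠ 1 → Disjoint (τ '' O) O := by
  obtain ⟨ι, hι, hd⟩ := S.disp_aux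
  refine ⟨{w | dist (base w) (base v) < ι / 2 ∧ |w.2.2 - v.2.2| < 1}, ?_, ?_, ?_⟩
  · apply IsOpen.inter
    · exact isOpen_lt (continuous_base.dist continuous_const) continuous_const
    · exact isOpen_lt (by fun_prop : Continuous fun w : T => |w.2.2 - v.2.2|) continuous_const
  · exact ⟨by rw [dist_self]; positivity, by rw [sub_self, abs_zero]; exact one_pos⟩
  · rintro τ ⟨g, hg, k, hk⟩ hne
    rw [Set.disjoint_left]
    rintro _ ⟨w, ⟨hw1, hw2⟩, rfl⟩ ⟨hw3, hw4⟩
    apply hne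
    have hb : base (τ w) = g • base w := by rw [hk, base_tau]
    have h1 : dist (base w) (g • base w) < ι := by
      rw [← hb]
      have := dist_triangle_right (base w) (base (τ w)) (base v)
      linarith
    obtain ⟨m, hm⟩ := deck_triv hk (hd g hg ⟨base w, h1⟩)
    have h2 : (τ w).2.2 = w.2.2 + 2 * Real.pi * m := by rw [hm]; rfl
    rw [h2] at hw4
    rw [abs_lt] at hw2 hw4
    have h3 : |2 * Real.pi * (m : ℝ)| < 2 := by rw [abs_lt]; constructor <;> linarith
    rw [abs_mul, abs_of_pos (by positivity : (0 : ℝ) < 2 * Real.pi)] at h3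
    have hpi := Real.pi_gt_three
    have h4 : |(m : ℝ)| < 1 := by
      by_contra hc
      push Not at hc
      nlinarith [abs_nonneg (m : ℝ)]
    have h5 : m = 0 := by
      have : |m| < 1 := by exact_mod_cast h4
      exact Int.abs_lt_one_iff.1 this
    ext1 u
    rw [hm, h5]
    simp [rot]

end H14.Flat
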