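import Pool.Agent.H14.Flat.Mob

/-!
# Invariance of the hyperbolic gradient and of the curvature (helper14)
-/

namespace H14.Flat

open MeasureTheory Set Filter H65.Flat
open scoped UpperHalfPlane MatrixGroups ENNReal Topology

variable (g : SL(2, ℝ))

section aux

variable {F f h : ℝ × ℝ → ℝ}

lemma clm_apply' (L : ℝ × ℝ →L[ℝ] ℝ) (a b : ℝ) : L (a, b) = a * L (1, 0) + b * L (0, 1) := by
  have : ((a, b) : ℝ × ℝ) = a • ((1, 0) : ℝ × ℝ) + b • ((0, 1) : ℝ × ℝ) := by
    simp
  rw [this, map_add, map_smul, map_smul, smul_eq_mul, smul_eq_mul]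

lemma Ux_comp (hF : Differentiable ℝ F) (p : ℝ × ℝ) :
    Ux (fun p => F (mob g p)) p = Real.cos (ang g p) / nn g p * Ux F (mob g p) +
      Real.exp (-p.2) * Real.sin (ang g p) * Us F (mob g p) := by
  unfold Ux Us
  rw [fderiv_fun_comp p (hF _) (mob_diff g p), ContinuousLinearMap.comp_apply, fderiv_mob_x,
    clm_apply']

lemma Us_comp (hF : Differentiable ℝ F) (p : ℝ × ℝ) :
    Us (fun p => F (mob g p)) p = -Real.sin (ang g p) * Real.exp p.2 / nn g p * Ux F (mob g p) +
      Real.cos (ang g p) * Us F (mob g p) := by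
  unfold Ux Us
  rw [fderiv_fun_comp p (hF _) (mob_diff g p), ContinuousLinearMap.comp_apply, fderiv_mob_s,
    clm_apply']

lemma Ux_add {p : ℝ × ℝ} (hf : DifferentiableAt ℝ f p) (hh : DifferentiableAt ℝ h p) :
    Ux (fun p => f p + h p) p = Ux f p + Ux h p := by
  unfold Ux; rw [fderiv_fun_add hf hh]; rfl

lemma Us_add {p : ℝ × ℝ} (hf : DifferentiableAt ℝ f p) (hh : DifferentiableAt ℝ h p) :
    Us (fun p => f p + h p) p = Us f p + Us h p := by
  unfold Us; rw [fderiv_fun_add hf hh]; rfl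

lemma Ux_mul {p : ℝ × ℝ} (hf : DifferentiableAt ℝ f p) (hh : DifferentiableAt ℝ h p) :
    Ux (fun p => f p * h p) p = f p * Ux h p + h p * Ux f p := by
  unfold Ux; rw [fderiv_fun_mul hf hh]; simp

lemma Us_mul {p : ℝ × ℝ} (hf : DifferentiableAt ℝ f p) (hh : DifferentiableAt ℝ h p) :
    Us (fun p => f p * h p) p = f p * Us h p + h p * Us f p := by
  unfold Us; rw [fderiv_fun_mul hf hh]; simp

lemma Ux_cos (p : ℝ × ℝ) : Ux (fun p => Real.cos (ang g p)) p =
    -Real.sin (ang g p) * (Real.exp (-p.2) * (1 - Real.cos (ang g p))) := by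
  unfold Ux
  rw [((ang_diff g p).hasFDerivAt.cos).fderiv]
  simp [fderiv_ang_x]

lemma Us_cos (p : ℝ × ℝ) : Us (fun p => Real.cos (ang g p)) p =
    -Real.sin (ang g p) * Real.sin (ang g p) := by
  unfold Us
  rw [((ang_diff g p).hasFDerivAt.cos).fderiv]
  simp [fderiv_ang_s]

lemma Ux_sin (p : ℝ × ℝ) : Ux (fun p => Real.sin (ang g p)) p =
    Real.cos (ang g p) * (Real.exp (-p.2) * (1 - Real.cos (ang g p))) := by
  unfold Ux
  rw [((ang_diff g p).hasFDerivAt.sin).fderiv]
  simp [fderiv_ang_x]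

lemma Us_sin (p : ℝ × ℝ) : Us (fun p => Real.sin (ang g p)) p =
    Real.cos (ang g p) * Real.sin (ang g p) := by
  unfold Us
  rw [((ang_diff g p).hasFDerivAt.sin).fderiv]
  simp [fderiv_ang_s]

lemma Ux_smooth (hF : ContDiff ℝ (⊤ : ℕ∞) F) : ContDiff ℝ (⊤ : ℕ∞) (Ux F) := by
  unfold Ux
  exact (hF.fderiv_right (m := (⊤ : ℕ∞)) (by simp)).clm_apply contDiff_const

lemma Us_smooth (hF : ContDiff ℝ (⊤ : ℕ∞) F) : ContDiff ℝ (⊤ : ℕ∞) (Us F) := by
  unfold Us
  exact (hF.fderiv_right (m := (⊤ : ℕ∞)) (by simp)).clm_apply contDiff_const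

end aux

/-- `e^s U_x` -/
noncomputable def gA (U : ℝ × ℝ → ℝ) (p : ℝ × ℝ) : ℝ := Real.exp p.2 * Ux U p

variable {U : ℝ × ℝ → ℝ} (hU : ContDiff ℝ (⊤ : ℕ∞) U)

include hU

lemma gA_smooth : ContDiff ℝ (⊤ : ℕ∞) (gA U) := by
  unfold gA
  exact (Real.contDiff_exp.comp contDiff_snd).mul (Ux_smooth hU)

lemma Ux_gA (p : ℝ × ℝ) : Ux (gA U) p = Real.exp p.2 * Ux (Ux U) p := by
  have h1 : Ux (fun p : ℝ × ℝ => Real.exp p.2) p = 0 := by
    apply fderiv_fst
    · fun_prop
    · simpa using hasDerivAt_const p.1 (Real.exp p.2)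
  have h2 : DifferentiableAt ℝ (fun p : ℝ × ℝ => Real.exp p.2) p := by fun_prop
  have h3 := Ux_mul h2 ((Ux_smooth hU).differentiable (by simp) p)
  rw [h1] at h3
  unfold gA
  rw [h3]; ring

lemma curv_eq (p : ℝ × ℝ) : curv U p =
    -Real.exp (-2 * U p) * (Real.exp p.2 * Ux (gA U) p + Us (Us U) p - Us U p + 1) := by
  unfold curv
  rw [Ux_gA hU]
  have : Real.exp (2 * p.2) = Real.exp p.2 * Real.exp p.2 := by rw [← Real.exp_add]; ring_nf
  rw [this]; ring

lemma curv_smooth : ContDiff ℝ (⊤ : ℕ∞) (curv U) := by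
  have h1 := Ux_smooth (Ux_smooth hU)
  have h2 := Us_smooth (Us_smooth hU)
  have h3 := Us_smooth hU
  unfold curv
  fun_prop

variable {g} (hinv : ∀ p, U (mob g p) = U p)

include hinv

lemma gA_inv (p : ℝ × ℝ) : gA U p = Real.cos (ang g p) * gA U (mob g p) +
    Real.sin (ang g p) * Us U (mob g p) := by
  have h := Ux_comp g (hU.differentiable (by simp)) p
  have h1 : (fun p => U (mob g p)) = U := funext hinv
  rw [h1] at h
  unfold gA
  rw [h, exp_mob, Real.exp_neg]
  have he := (Real.exp_pos p.2).ne'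
  field_simp

lemma Us_inv (p : ℝ × ℝ) : Us U p = -Real.sin (ang g p) * gA U (mob g p) +
    Real.cos (ang g p) * Us U (mob g p) := by
  have h := Us_comp g (hU.differentiable (by simp)) p
  have h1 : (fun p => U (mob g p)) = U := funext hinv
  rw [h1] at h
  rw [h]
  unfold gA
  rw [exp_mob]
  ring

lemma grad_inv (p : ℝ × ℝ) : gA U p ^ 2 + Us U p ^ 2 =
    gA U (mob g p) ^ 2 + Us U (mob g p) ^ 2 := by
  rw [gA_inv hU hinv p, Us_inv hU hinv p]
  linear_combination (gA U (mob g p) ^ 2 + Us U (mob g p) ^ 2) *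
    (Real.sin_sq_add_cos_sq (ang g p))

theorem curv_inv (p : ℝ × ℝ) : curv U (mob g p) = curv U p := by
  rw [curv_eq hU, curv_eq hU, hinv]
  congr 1
  have hA := gA_smooth hU
  have hB := Us_smooth hU
  have dA : Differentiable ℝ (gA U) := hA.differentiable (by simp)
  have dB : Differentiable ℝ (Us U) := hB.differentiable (by simp)
  have dm : Differentiable ℝ (mob g) := fun p => mob_diff g p
  have dAm : Differentiable ℝ fun p => gA U (mob g p) := dA.comp dm
  have dBm : Differentiable ℝ fun p => Us U (mob g p) := dB.comp dm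
  have dc : Differentiable ℝ fun p => Real.cos (ang g p) := fun p => (ang_diff g p).cos
  have ds : Differentiable ℝ fun p => Real.sin (ang g p) := fun p => (ang_diff g p).sin
  have e1 : gA U = fun p => Real.cos (ang g p) * gA U (mob g p) +
    Real.sin (ang g p) * Us U (mob g p) := funext (gA_inv hU hinv)
  have e2 : Us U = fun p => (-Real.sin (ang g p)) * gA U (mob g p) +
    Real.cos (ang g p) * Us U (mob g p) := funext (Us_inv hU hinv)
  have hx : Ux (gA U) p = Real.cos (ang g p) * (Real.cos (ang g p) / nn g p * Ux (gA U) (mob g p) +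
      Real.exp (-p.2) * Real.sin (ang g p) * Us (gA U) (mob g p)) + gA U (mob g p) *
      (-Real.sin (ang g p) * (Real.exp (-p.2) * (1 - Real.cos (ang g p)))) +
      (Real.sin (ang g p) * (Real.cos (ang g p) / nn g p * Ux (Us U) (mob g p) +
      Real.exp (-p.2) * Real.sin (ang g p) * Us (Us U) (mob g p)) + Us U (mob g p) *
      (Real.cos (ang g p) * (Real.exp (-p.2) * (1 - Real.cos (ang g p))))) := by
    conv_lhs => rw [e1]
    have d1 : DifferentiableAt ℝ (fun p => Real.cos (ang g p) * gA U (mob g p)) p :=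
      (dc p).mul (dAm p)
    have d2 : DifferentiableAt ℝ (fun p => Real.sin (ang g p) * Us U (mob g p)) p :=
      (ds p).mul (dBm p)
    rw [Ux_add d1 d2, Ux_mul (dc p) (dAm p),
      Ux_mul (ds p) (dBm p), Ux_comp g dA, Ux_comp g dB, Ux_cos, Ux_sin]
  have hs : Us (Us U) p = (-Real.sin (ang g p)) * (-Real.sin (ang g p) * Real.exp p.2 / nn g p *
      Ux (gA U) (mob g p) + Real.cos (ang g p) * Us (gA U) (mob g p)) + gA U (mob g p) *
      (-(Real.cos (ang g p) * Real.sin (ang g p))) +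
      (Real.cos (ang g p) * (-Real.sin (ang g p) * Real.exp p.2 / nn g p *
      Ux (Us U) (mob g p) + Real.cos (ang g p) * Us (Us U) (mob g p)) + Us U (mob g p) *
      (-Real.sin (ang g p) * Real.sin (ang g p))) := by
    conv_lhs => rw [e2]
    have hneg : Us (fun p => -Real.sin (ang g p)) p = -(Real.cos (ang g p) * Real.sin (ang g p)) := by
      rw [← Us_sin g p]
      unfold Us
      rw [fderiv_fun_neg]; rfl
    have d0 : DifferentiableAt ℝ (fun p => -Real.sin (ang g p)) p := (ds p).neg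
    have d1 : DifferentiableAt ℝ (fun p => -Real.sin (ang g p) * gA U (mob g p)) p :=
      d0.mul (dAm p)
    have d2 : DifferentiableAt ℝ (fun p => Real.cos (ang g p) * Us U (mob g p)) p :=
      (dc p).mul (dBm p)
    rw [Us_add d1 d2, Us_mul d0 (dAm p),
      Us_mul (dc p) (dBm p), Us_comp g dA, Us_comp g dB, Us_cos, hneg]
  rw [hx, hs, exp_mob, Real.exp_neg]
  conv_rhs => rw [Us_inv hU hinv p]
  have he := (Real.exp_pos p.2).ne'
  have hn := (nn_pos g p).ne'
  have hcs := Real.sin_sq_add_cos_sq (ang g p)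
  generalize Real.sin (ang g p) = s at *
  generalize Real.cos (ang g p) = c at *
  generalize Real.exp p.2 = e at *
  generalize nn g p = n at *
  generalize Ux (gA U) (mob g p) = a1 at *
  generalize Us (gA U) (mob g p) = a2 at *
  generalize Ux (Us U) (mob g p) = b1 at *
  generalize Us (Us U) (mob g p) = b2 at *
  generalize gA U (mob g p) = A at *
  generalize Us U (mob g p) = B at *
  field_simp
  linear_combination (-(e * a1 + n * b2 - n * B)) * hcs

end H14.Flat
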