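import Pool.Agent.H65.Flat.Srf

/-!
# Möbius transformations in the coordinates `(x, s)`, `z = x + i e^s` (helper14)
-/

namespace H14.Flat

open MeasureTheory Set Filter H65.Flat
open scoped UpperHalfPlane MatrixGroups ENNReal Topology

variable (g : SL(2, ℝ)) (p : ℝ × ℝ)

lemma det_rel : g 0 0 * g 1 1 - g 0 1 * g 1 0 = 1 := by
  have := g.det_coe
  rwa [Matrix.det_fin_two] at this

/-- real part of `cz+d` -/
noncomputable def wr : ℝ := g 1 0 * p.1 + g 1 1

/-- imaginary part of `cz+d` -/
noncomputable def wi : ℝ := g 1 0 * Real.exp p.2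

/-- `|cz+d|²` -/
noncomputable def nn : ℝ := wr g p ^ 2 + wi g p ^ 2

lemma nn_pos : 0 < nn g p := by
  unfold nn
  rcases eq_or_ne (wi g p) 0 with h | h
  · have hc : g 1 0 = 0 := by
      unfold wi at h
      rcases mul_eq_zero.1 h with h | h
      · exact h
      · exact absurd h (Real.exp_pos _).ne'
    have hd := det_rel g
    rw [hc] at hd
    have : wr g p ≠ 0 := by
      unfold wr; rw [hc]
      intro h0
      have : g 1 1 = 0 := by linarith
      rw [this] at hd; simp at hd
    positivity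
  · positivity

/-- the action of `g` in the coordinates `(x, s)` -/
noncomputable def mob : ℝ × ℝ :=
  (((g 0 0 * p.1 + g 0 1) * wr g p + g 0 0 * g 1 0 * Real.exp p.2 ^ 2) / nn g p,
    p.2 - Real.log (nn g p))

lemma exp_mob : Real.exp (mob g p).2 = Real.exp p.2 / nn g p := by
  simp only [mob]
  rw [Real.exp_sub, Real.exp_log (nn_pos g p)]

lemma zz_mob : zz (mob g p) = g • zz p := by
  have hn := (nn_pos g p).ne'
  have hd := det_rel g
  apply UpperHalfPlane.ext
  rw [UpperHalfPlane.coe_specialLinearGroup_apply]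
  have hw : ((algebraMap ℝ ℝ (g 1 0) : ℝ) : ℂ) * (zz p : ℂ) + ((algebraMap ℝ ℝ (g 1 1) : ℝ) : ℂ)
      = ⟨wr g p, wi g p⟩ := by
    apply Complex.ext <;> simp [zz, wr, wi]
  rw [hw]
  have hw0 : (⟨wr g p, wi g p⟩ : ℂ) ≠ 0 := by
    intro h
    have h1 := congrArg Complex.re h
    have h2 := congrArg Complex.im h
    simp only [Complex.zero_re, Complex.zero_im] at h1 h2
    apply hn; unfold nn; rw [h1, h2]; ring
  rw [eq_div_iff hw0]
  have hz : ((zz (mob g p) : ℍ) : ℂ) = ⟨(mob g p).1, Real.exp p.2 / nn g p⟩ := by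
    apply Complex.ext
    · simp [zz]
    · simp [zz, exp_mob]
  rw [hz]
  apply Complex.ext
  · simp only [Complex.mul_re, Complex.add_re, Complex.ofReal_re, Complex.ofReal_im, zz, mob,
      Algebra.algebraMap_self, RingHom.id_apply]
    field_simp
    unfold nn wr wi
    linear_combination (g 1 0 * Real.exp p.2 ^ 2) * hd
  · simp only [Complex.mul_im, Complex.add_im, Complex.ofReal_re, Complex.ofReal_im, zz, mob,
      Algebra.algebraMap_self, RingHom.id_apply]
    field_simp
    unfold nn wr wi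
    linear_combination (-((g 1 0 * p.1 + g 1 1) * Real.exp p.2)) * hd

/-- rotation angle of the derivative of `g` (a smooth branch of `-2 arg (cz+d)`) -/
noncomputable def ang : ℝ :=
  if g 1 0 = 0 then 0 else Real.pi + 2 * Real.arctan (wr g p / wi g p)

lemma wi_ne (h : g 1 0 ≠ 0) : wi g p ≠ 0 := mul_ne_zero h (Real.exp_pos _).ne'

lemma cos_ang : Real.cos (ang g p) = (wr g p ^ 2 - wi g p ^ 2) / nn g p := by
  have hn := (nn_pos g p).ne'
  unfold ang
  split_ifs with h
  · have : wi g p = 0 := by simp [wi, h]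
    rw [Real.cos_zero, eq_div_iff hn]
    unfold nn; rw [this]; ring
  · have hw := wi_ne g p h
    rw [add_comm, Real.cos_add_pi, Real.cos_two_mul, Real.cos_sq_arctan]
    have h1 : 1 + (wr g p / wi g p) ^ 2 = nn g p / wi g p ^ 2 := by
      unfold nn; field_simp; ring
    rw [h1]
    rw [one_div_div, eq_div_iff hn]
    field_simp
    unfold nn; ring

lemma sin_ang : Real.sin (ang g p) = -(2 * wr g p * wi g p) / nn g p := by
  have hn := (nn_pos g p).ne'
  unfold ang
  split_ifs with h
  · have : wi g p = 0 := by simp [wi, h]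
    rw [Real.sin_zero, this]; simp
  · have hw := wi_ne g p h
    rw [add_comm, Real.sin_add_pi, Real.sin_two_mul]
    have hc : 0 < Real.cos (Real.arctan (wr g p / wi g p)) := Real.cos_arctan_pos _
    have hs : Real.sin (Real.arctan (wr g p / wi g p)) =
        wr g p / wi g p * Real.cos (Real.arctan (wr g p / wi g p)) := by
      have := Real.tan_arctan (wr g p / wi g p)
      rw [Real.tan_eq_sin_div_cos, div_eq_iff hc.ne'] at this
      exact this
    rw [hs]
    have h1 : 1 + (wr g p / wi g p) ^ 2 = nn g p / wi g p ^ 2 := by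
      unfold nn; field_simp; ring
    have h2 := Real.cos_sq_arctan (wr g p / wi g p)
    rw [h1] at h2
    have h3 : 2 * (wr g p / wi g p * Real.cos (Real.arctan (wr g p / wi g p))) *
        Real.cos (Real.arctan (wr g p / wi g p)) =
        2 * (wr g p / wi g p) * Real.cos (Real.arctan (wr g p / wi g p)) ^ 2 := by ring
    rw [h3, h2]
    field_simp

/-! ### smoothness -/

lemma wr_smooth : ContDiff ℝ (⊤ : ℕ∞) (wr g) := by unfold wr; fun_prop
lemma wi_smooth : ContDiff ℝ (⊤ : ℕ∞) (wi g) := by unfold wi; fun_prop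
lemma nn_smooth : ContDiff ℝ (⊤ : ℕ∞) (nn g) := by
  unfold nn
  exact ((wr_smooth g).pow 2).add ((wi_smooth g).pow 2)

lemma mob_smooth : ContDiff ℝ (⊤ : ℕ∞) (mob g) := by
  unfold mob
  refine ContDiff.prodMk (ContDiff.div ?_ (nn_smooth g) fun p => (nn_pos g p).ne')
    (contDiff_snd.sub ((nn_smooth g).log fun p => (nn_pos g p).ne'))
  have := wr_smooth g
  fun_prop

lemma ang_smooth : ContDiff ℝ (⊤ : ℕ∞) (ang g) := by
  unfold ang
  by_cases h : g 1 0 = 0
  · simp only [h, if_true]; exact contDiff_const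
  · simp only [h, if_false]
    exact contDiff_const.add (contDiff_const.mul
      (((wr_smooth g).div (wi_smooth g) fun p => wi_ne g p h).arctan))

/-! ### derivatives -/

lemma fderiv_fst {E : Type*} [NormedAddCommGroup E] [NormedSpace ℝ E] {F : ℝ × ℝ → E}
    {p : ℝ × ℝ} {e : E} (hF : DifferentiableAt ℝ F p)
    (h : HasDerivAt (fun x => F (x, p.2)) e p.1) : fderiv ℝ F p (1, 0) = e := by
  have h1 : HasDerivAt (fun x : ℝ => (x, p.2)) ((1 : ℝ), (0 : ℝ)) p.1 :=
    (hasDerivAt_id p.1).prodMk (hasDerivAt_const _ _)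
  have h2 : HasFDerivAt F (fderiv ℝ F p) (p.1, p.2) := hF.hasFDerivAt
  exact (h2.comp_hasDerivAt p.1 h1).unique h

lemma fderiv_snd {E : Type*} [NormedAddCommGroup E] [NormedSpace ℝ E] {F : ℝ × ℝ → E}
    {p : ℝ × ℝ} {e : E} (hF : DifferentiableAt ℝ F p)
    (h : HasDerivAt (fun s => F (p.1, s)) e p.2) : fderiv ℝ F p (0, 1) = e := by
  have h1 : HasDerivAt (fun s : ℝ => (p.1, s)) ((0 : ℝ), (1 : ℝ)) p.2 :=
    (hasDerivAt_const _ _).prodMk (hasDerivAt_id p.2)
  have h2 : HasFDerivAt F (fderiv ℝ F p) (p.1, p.2) := hF.hasFDerivAt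
  exact (h2.comp_hasDerivAt p.2 h1).unique h

lemma mob_diff : DifferentiableAt ℝ (mob g) p := (mob_smooth g).differentiable (by simp) p
lemma ang_diff : DifferentiableAt ℝ (ang g) p := (ang_smooth g).differentiable (by simp) p

lemma hasDerivAt_wr_x : HasDerivAt (fun x => wr g (x, p.2)) (g 1 0) p.1 := by
  unfold wr
  simpa using ((hasDerivAt_id p.1).const_mul (g 1 0 : ℝ)).add_const (g 1 1 : ℝ)

lemma hasDerivAt_nn_x : HasDerivAt (fun x => nn g (x, p.2)) (2 * wr g p * g 1 0) p.1 := by
  have h := ((hasDerivAt_wr_x g p).pow 2).add_const (wi g p ^ 2)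
  refine HasDerivAt.congr_deriv (f := fun x => wr g (x, p.2) ^ 2 + wi g p ^ 2) h ?_
  simp

lemma hasDerivAt_wi_s : HasDerivAt (fun s => wi g (p.1, s)) (wi g p) p.2 := by
  unfold wi
  exact (Real.hasDerivAt_exp p.2).const_mul (g 1 0 : ℝ)

lemma hasDerivAt_nn_s : HasDerivAt (fun s => nn g (p.1, s)) (2 * wi g p ^ 2) p.2 := by
  have h := ((hasDerivAt_wi_s g p).pow 2).const_add (wr g p ^ 2)
  refine HasDerivAt.congr_deriv (f := fun s => wr g p ^ 2 + wi g (p.1, s) ^ 2) h ?_
  simp; ring

/-- derivative of `mob g` in the direction `∂x` -/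
lemma fderiv_mob_x : fderiv ℝ (mob g) p (1, 0) =
    (Real.cos (ang g p) / nn g p, Real.exp (-p.2) * Real.sin (ang g p)) := by
  apply fderiv_fst (mob_diff g p)
  have hn := (nn_pos g p).ne'
  have hd := det_rel g
  have h1 : HasDerivAt (fun x => (g 0 0 * x + g 0 1) * wr g (x, p.2) +
      g 0 0 * g 1 0 * Real.exp p.2 ^ 2)
      (g 0 0 * wr g p + (g 0 0 * p.1 + g 0 1) * g 1 0) p.1 := by
    have h := ((((hasDerivAt_id p.1).const_mul (g 0 0 : ℝ)).add_const (g 0 1 : ℝ)).mul
      (hasDerivAt_wr_x g p)).add_const (g 0 0 * g 1 0 * Real.exp p.2 ^ 2)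
    refine HasDerivAt.congr_deriv (f := fun x => (g 0 0 * x + g 0 1) * wr g (x, p.2) +
      g 0 0 * g 1 0 * Real.exp p.2 ^ 2) h ?_
    simp
  have h2 := h1.div (hasDerivAt_nn_x g p) hn
  have h3 := ((hasDerivAt_nn_x g p).log hn).const_sub p.2
  refine (h2.prodMk h3).congr_deriv ?_
  rw [cos_ang, sin_ang, Real.exp_neg]
  have he := (Real.exp_pos p.2).ne'
  refine Prod.ext ?_ ?_
  · simp only
    field_simp
    unfold nn wi wr
    linear_combination ((g 1 0 * p.1 + g 1 1) ^ 2 - (g 1 0 * Real.exp p.2) ^ 2) * hd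
  · simp only
    unfold wi
    field_simp

/-- derivative of `mob g` in the direction `∂s` -/
lemma fderiv_mob_s : fderiv ℝ (mob g) p (0, 1) =
    (-Real.sin (ang g p) * Real.exp p.2 / nn g p, Real.cos (ang g p)) := by
  apply fderiv_snd (mob_diff g p)
  have hn := (nn_pos g p).ne'
  have hd := det_rel g
  have h1 : HasDerivAt (fun s => (g 0 0 * p.1 + g 0 1) * wr g p +
      g 0 0 * g 1 0 * Real.exp s ^ 2)
      (g 0 0 * g 1 0 * (2 * Real.exp p.2 ^ 2)) p.2 := by
    have h := (((Real.hasDerivAt_exp p.2).pow 2).const_mul (g 0 0 * g 1 0 : ℝ)).const_add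
      ((g 0 0 * p.1 + g 0 1) * wr g p)
    refine HasDerivAt.congr_deriv (f := fun s => (g 0 0 * p.1 + g 0 1) * wr g p +
      g 0 0 * g 1 0 * Real.exp s ^ 2) h ?_
    simp; left; ring
  have h2 := h1.div (hasDerivAt_nn_s g p) hn
  have h3 := (hasDerivAt_id p.2).sub ((hasDerivAt_nn_s g p).log hn)
  refine (h2.prodMk h3).congr_deriv ?_
  rw [cos_ang, sin_ang]
  refine Prod.ext ?_ ?_
  · simp only
    field_simp
    unfold nn wi wr
    linear_combination ((g 1 0 * p.1 + g 1 1) * g 1 0 * Real.exp p.2 ^ 2) * hd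
  · simp only
    field_simp
    unfold nn
    ring

/-- derivative of the angle in the direction `∂x` -/
lemma fderiv_ang_x : fderiv ℝ (ang g) p (1, 0) = Real.exp (-p.2) * (1 - Real.cos (ang g p)) := by
  have hn := (nn_pos g p).ne'
  have he := (Real.exp_pos p.2).ne'
  by_cases h : g 1 0 = 0
  · have h1 : ang g = fun _ => 0 := by funext p; simp [ang, h]
    rw [h1]; simp
  · apply fderiv_fst (ang_diff g p)
    have hw := wi_ne g p h
    have h1 : HasDerivAt (fun x => wr g (x, p.2) / wi g p) (g 1 0 / wi g p) p.1 :=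
      (hasDerivAt_wr_x g p).div_const _
    have h2 := ((h1.arctan).const_mul 2).const_add Real.pi
    have h3 : (fun x => ang g (x, p.2)) = fun x => Real.pi +
        2 * Real.arctan (wr g (x, p.2) / wi g p) := by
      funext x; simp [ang, h, wi]
    rw [h3]
    refine h2.congr_deriv ?_
    rw [cos_ang, Real.exp_neg]
    have h5 : 1 + (wr g p / wi g p) ^ 2 = nn g p / wi g p ^ 2 := by
      unfold nn; field_simp; ring
    simp only [Prod.mk.eta]
    rw [h5]
    field_simp
    unfold nn wi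
    ring

/-- derivative of the angle in the direction `∂s` -/
lemma fderiv_ang_s : fderiv ℝ (ang g) p (0, 1) = Real.sin (ang g p) := by
  have hn := (nn_pos g p).ne'
  by_cases h : g 1 0 = 0
  · have h1 : ang g = fun _ => 0 := by funext p; simp [ang, h]
    rw [h1]; simp
  · apply fderiv_snd (ang_diff g p)
    have hw := wi_ne g p h
    have h1 : HasDerivAt (fun s => wr g p / wi g (p.1, s)) (-(wr g p * wi g p) / wi g p ^ 2) p.2 := by
      have := (hasDerivAt_const p.2 (wr g p)).div (hasDerivAt_wi_s g p) hw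
      refine this.congr_deriv ?_
      simp
    have h2 := ((h1.arctan).const_mul 2).const_add Real.pi
    have h3 : (fun s => ang g (p.1, s)) = fun s => Real.pi +
        2 * Real.arctan (wr g p / wi g (p.1, s)) := by
      funext x; simp [ang, h, wr]
    rw [h3]
    refine h2.congr_deriv ?_
    rw [sin_ang]
    have h5 : 1 + (wr g p / wi g p) ^ 2 = nn g p / wi g p ^ 2 := by
      unfold nn; field_simp; ring
    simp only [Prod.mk.eta]
    rw [h5]
    field_simp

end H14.Flat
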