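import Pool.Agent.H14.Flat.Inv
import Pool.Agent.H65.Flat.Meas
import Pool.Agent.H65.Flat.ODE

/-!
# The lift of a Möbius transformation to the phase space (helper14)
-/

namespace H14.Flat

open MeasureTheory Set Filter H65.Flat
open scoped UpperHalfPlane MatrixGroups ENNReal Topology

lemma zz_inj {p q : ℝ × ℝ} (h : zz p = zz q) : p = q := by
  have h1 := congrArg UpperHalfPlane.re h
  have h2 := congrArg UpperHalfPlane.im h
  have h3 : p.1 = q.1 := h1
  have h4 : Real.exp p.2 = Real.exp q.2 := h2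
  exact Prod.ext h3 (Real.exp_injective h4)

lemma base_eq (v : T) : base v = zz (bp v) := rfl

lemma zz_surj (z : ℍ) : zz (z.re, Real.log z.im) = z := by
  apply UpperHalfPlane.ext_re_im
  · rfl
  · show Real.exp (Real.log z.im) = z.im
    exact Real.exp_log z.im_pos

lemma mob_mul (g h : SL(2, ℝ)) (p : ℝ × ℝ) : mob (g * h) p = mob g (mob h p) := by
  apply zz_inj
  rw [zz_mob, zz_mob, zz_mob, mul_smul]

lemma mob_one (p : ℝ × ℝ) : mob 1 p = p := by
  apply zz_inj
  rw [zz_mob, one_smul]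

lemma ang_one (p : ℝ × ℝ) : ang 1 p = 0 := by
  simp [ang]

/-- the lift of `g` (with the branch shift `2πk`) -/
noncomputable def tau (g : SL(2, ℝ)) (k : ℤ) (v : T) : T :=
  ((mob g (bp v)).1, (mob g (bp v)).2, v.2.2 + ang g (bp v) + 2 * Real.pi * k)

@[simp] lemma bp_tau (g : SL(2, ℝ)) (k : ℤ) (v : T) : bp (tau g k v) = mob g (bp v) := rfl

@[simp] lemma bp_rot (a : ℝ) (v : T) : bp (rot a v) = bp v := rfl

lemma base_tau (g : SL(2, ℝ)) (k : ℤ) (v : T) : base (tau g k v) = g • base v := by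
  rw [base_eq, bp_tau, zz_mob]; rfl

lemma tau_one (k : ℤ) (v : T) : tau 1 k v = rot (2 * Real.pi * k) v := by
  unfold tau
  rw [mob_one, ang_one]
  simp [rot, bp]

lemma rot_tau (g : SL(2, ℝ)) (k : ℤ) (a : ℝ) (v : T) : rot a (tau g k v) = tau g k (rot a v) := by
  unfold tau
  simp only [rot, bp, Prod.mk.injEq, true_and]
  ring

lemma bp_smooth : ContDiff ℝ (⊤ : ℕ∞) bp := by unfold bp; fun_prop

lemma tau_smooth (g : SL(2, ℝ)) (k : ℤ) : ContDiff ℝ (⊤ : ℕ∞) (tau g k) := by
  have h1 := (mob_smooth g).comp bp_smooth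
  have h2 := (ang_smooth g).comp bp_smooth
  unfold tau
  refine (contDiff_fst.comp h1).prodMk ((contDiff_snd.comp h1).prodMk ?_)
  refine ContDiff.add (ContDiff.add ?_ h2) contDiff_const
  fun_prop

/-- the lift maps integral curves of the geodesic field to integral curves -/
lemma tau_deriv {U : ℝ × ℝ → ℝ} (hU : ContDiff ℝ (⊤ : ℕ∞) U) {g : SL(2, ℝ)}
    (hinv : ∀ p, U (mob g p) = U p) (k : ℤ) {γ : ℝ → T} {t : ℝ}
    (h : HasDerivAt γ (fieldX U (γ t)) t) :
    HasDerivAt (fun t => tau g k (γ t)) (fieldX U (tau g k (γ t))) t := by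
  set v := γ t with hv
  have hb : HasDerivAt (fun t => bp (γ t)) ((fieldX U v).1, (fieldX U v).2.1) t :=
    h.fst.prodMk h.snd.fst
  have hml : HasFDerivAt (mob g) (fderiv ℝ (mob g) (bp v)) ((fun t => bp (γ t)) t) :=
    (mob_diff g (bp v)).hasFDerivAt
  have hal : HasFDerivAt (ang g) (fderiv ℝ (ang g) (bp v)) ((fun t => bp (γ t)) t) :=
    (ang_diff g (bp v)).hasFDerivAt
  have hm := hml.comp_hasDerivAt t hb
  have ha := hal.comp_hasDerivAt t hb
  have e : ((fieldX U v).1, (fieldX U v).2.1) =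
      (fieldX U v).1 • ((1, 0) : ℝ × ℝ) + (fieldX U v).2.1 • ((0, 1) : ℝ × ℝ) := by simp
  have hp : HasDerivAt (fun t => (γ t).2.2) (fieldX U v).2.2 t := h.snd.snd
  have hm1 : HasDerivAt (fun t => (mob g (bp (γ t))).1)
      (fderiv ℝ (mob g) (bp v) ((fieldX U v).1, (fieldX U v).2.1)).1 t := hm.fst
  have hm2 : HasDerivAt (fun t => (mob g (bp (γ t))).2)
      (fderiv ℝ (mob g) (bp v) ((fieldX U v).1, (fieldX U v).2.1)).2 t := hm.snd
  have hfin : HasDerivAt (fun t => tau g k (γ t)) (_, _, _) t :=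
    hm1.prodMk (hm2.prodMk ((hp.add ha).add_const (2 * Real.pi * k)))
  refine hfin.congr_deriv ?_
  rw [e, map_add, map_smul, map_smul, fderiv_mob_x, fderiv_mob_s, map_add, map_smul, map_smul,
    fderiv_ang_x, fderiv_ang_s]
  have hA := gA_inv hU hinv (bp v)
  have hB := Us_inv hU hinv (bp v)
  have hk1 : Real.cos (v.2.2 + ang g (bp v) + 2 * Real.pi * k) =
      Real.cos (v.2.2 + ang g (bp v)) := by
    rw [mul_comm (2 * Real.pi), Real.cos_add_int_mul_two_pi]
  have hk2 : Real.sin (v.2.2 + ang g (bp v) + 2 * Real.pi * k) =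
      Real.sin (v.2.2 + ang g (bp v)) := by
    rw [mul_comm (2 * Real.pi), Real.sin_add_int_mul_two_pi]
  have hcs := Real.sin_sq_add_cos_sq (ang g (bp v))
  have hE : Real.exp ((mob g (bp v)).2 - U (bp v)) =
      Real.exp v.2.1 / nn g (bp v) * Real.exp (-U (bp v)) := by
    rw [sub_eq_add_neg, Real.exp_add, exp_mob]; rfl
  have hE2 : Real.exp (v.2.1 - U (bp v)) = Real.exp v.2.1 * Real.exp (-U (bp v)) := by
    rw [sub_eq_add_neg, Real.exp_add]
  have hE3 : Real.exp (-(bp v).2) = (Real.exp v.2.1)⁻¹ := by rw [Real.exp_neg]; rfl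
  have hE4 : Real.exp (bp v).2 = Real.exp v.2.1 := rfl
  have hgA : gA U (bp v) = Real.exp v.2.1 * Ux U (bp v) := rfl
  have hgA' : Real.exp (mob g (bp v)).2 * Ux U (mob g (bp v)) = gA U (mob g (bp v)) := rfl
  have he := (Real.exp_pos v.2.1).ne'
  have hn := (nn_pos g (bp v)).ne'
  have t1 : (tau g k v).2.1 = (mob g (bp v)).2 := rfl
  have t2 : (tau g k v).2.2 = v.2.2 + ang g (bp v) + 2 * Real.pi * k := rfl
  unfold fieldX
  simp only [bp_tau, t1, t2, hinv, hk1, hk2, Real.cos_add, Real.sin_add, hE, hE2, hE3, hE4,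
    smul_eq_mul, Prod.smul_fst, Prod.smul_snd, Prod.fst_add, Prod.snd_add, hgA']
  rw [hgA] at hA
  refine Prod.ext ?_ (Prod.ext ?_ ?_)
  · simp only
    field_simp
    ring
  · simp only
    field_simp
    ring
  · simp only
    have hA' : Real.exp v.2.1 * Ux U (bp v) * Real.sin v.2.2 =
        (Real.cos (ang g (bp v)) * gA U (mob g (bp v)) +
          Real.sin (ang g (bp v)) * Us U (mob g (bp v))) * Real.sin v.2.2 := by rw [hA]
    rw [hA', hB]
    field_simp
    ring

/-- the lift commutes with the flow -/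
lemma flow_tau (P : Pre) {g : SL(2, ℝ)} (hinv : ∀ p, P.U (mob g p) = P.U p) (k : ℤ)
    (t : ℝ) (v : T) : P.Φ t (tau g k v) = tau g k (P.Φ t v) := by
  have hX : ContDiff ℝ 1 (fieldX P.U) := by
    have h0 : ContDiff ℝ (⊤ : ℕ∞) fun v : T => P.U (bp v) := P.U_smooth.comp bp_smooth
    have h1 : ContDiff ℝ (⊤ : ℕ∞) fun v : T => Ux P.U (bp v) :=
      (Ux_smooth P.U_smooth).comp bp_smooth
    have h2 : ContDiff ℝ (⊤ : ℕ∞) fun v : T => Us P.U (bp v) :=
      (Us_smooth P.U_smooth).comp bp_smooth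
    have : ContDiff ℝ (⊤ : ℕ∞) (fieldX P.U) := by
      unfold fieldX
      fun_prop
    exact this.of_le (by norm_cast)
  exact H65.Flat.ODE.sol_unique hX (a := -|t|) (b := |t|) (t₀ := 0) (by simp)
    (γ₁ := fun t => P.Φ t (tau g k v)) (γ₂ := fun t => tau g k (P.Φ t v))
    (fun s _ => P.Φ_deriv _ s) (fun s _ => tau_deriv P.U_smooth hinv k (P.Φ_deriv v s))
    (by simp only [P.Φ_zero]) t ⟨neg_abs_le t, le_abs_self t⟩

/-- continuous lifts with the right direction are `tau g k` -/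
lemma exists_tau {g : SL(2, ℝ)} {f : T → T} (hf : Continuous f)
    (hb : ∀ v, bp (f v) = mob g (bp v))
    (hc : ∀ v, Real.cos (f v).2.2 = Real.cos (v.2.2 + ang g (bp v)))
    (hs : ∀ v, Real.sin (f v).2.2 = Real.sin (v.2.2 + ang g (bp v))) :
    ∃ k : ℤ, ∀ v, f v = tau g k v := by
  have h1 : ∀ v, ∃ k : ℤ, (f v).2.2 = v.2.2 + ang g (bp v) + 2 * Real.pi * k := by
    intro v
    have h2 : (((f v).2.2 : ℝ) : Real.Angle) = ((v.2.2 + ang g (bp v) : ℝ) : Real.Angle) := by
      apply Real.Angle.cos_sin_inj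
      · exact hc v
      · exact hs v
    rw [Real.Angle.angle_eq_iff_two_pi_dvd_sub] at h2
    obtain ⟨k, hk⟩ := h2
    exact ⟨k, by linarith⟩
  choose k hk using h1
  have hcont : Continuous fun v : T => ((k v : ℤ) : ℝ) := by
    have h3 : (fun v : T => ((k v : ℤ) : ℝ)) = fun v =>
        ((f v).2.2 - v.2.2 - ang g (bp v)) / (2 * Real.pi) := by
      funext v
      rw [hk v]; field_simp; ring
    rw [h3]
    have := (ang_smooth g).continuous.comp bp_smooth.continuous
    have h4 : Continuous fun v : T => ang g (bp v) := this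
    fun_prop
  have hkc : Continuous k := by
    rw [Int.isClosedEmbedding_coe_real.isEmbedding.continuous_iff]; exact hcont
  have hconst : ∀ v, k v = k (0, 0, 0) := fun v =>
    PreconnectedSpace.constant inferInstance hkc
  refine ⟨k (0, 0, 0), fun v => ?_⟩
  have hb' := hb v
  unfold tau
  rw [← hb', ← hconst v, ← hk v]
  rfl

lemma angle_mul (g h : SL(2, ℝ)) (p : ℝ × ℝ) :
    Real.cos (ang (g * h) p) = Real.cos (ang g (mob h p) + ang h p) ∧
    Real.sin (ang (g * h) p) = Real.sin (ang g (mob h p) + ang h p) := by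
  have h1 : mob (g * h) = fun p => mob g (mob h p) := funext (mob_mul g h)
  have h2 := fderiv_mob_s (g * h) p
  have hfd : fderiv ℝ (mob (g * h)) p = (fderiv ℝ (mob g) (mob h p)).comp (fderiv ℝ (mob h) p) := by
    rw [h1]; exact fderiv_fun_comp p (mob_diff g _) (mob_diff h p)
  have e := exp_mob (g * h) p
  rw [mob_mul, exp_mob, exp_mob] at e
  rw [hfd, ContinuousLinearMap.comp_apply, fderiv_mob_s] at h2
  have e2 : ((-Real.sin (ang h p) * Real.exp p.2 / nn h p, Real.cos (ang h p)) : ℝ × ℝ) =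
      (-Real.sin (ang h p) * Real.exp p.2 / nn h p) • ((1, 0) : ℝ × ℝ) +
        (Real.cos (ang h p)) • ((0, 1) : ℝ × ℝ) := by simp
  rw [e2, map_add, map_smul, map_smul, fderiv_mob_x, fderiv_mob_s, Real.exp_neg, exp_mob] at h2
  simp only [Prod.smul_mk, smul_eq_mul, Prod.mk_add_mk, Prod.mk.injEq] at h2
  obtain ⟨h3, h4⟩ := h2
  have he := (Real.exp_pos p.2).ne'
  have n1 := (nn_pos h p).ne'
  have n2 := (nn_pos g (mob h p)).ne'
  have n3 := (nn_pos (g * h) p).ne'
  constructor
  · rw [← h4, Real.cos_add]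
    field_simp
    ring
  · rw [Real.sin_add]
    have h5 : -Real.sin (ang (g * h) p) * (Real.exp p.2 / nn (g * h) p) =
        -(Real.sin (ang g (mob h p)) * Real.cos (ang h p) +
          Real.cos (ang g (mob h p)) * Real.sin (ang h p)) *
        (Real.exp p.2 / nn h p / nn g (mob h p)) := by
      rw [← mul_div_assoc, ← h3]
      field_simp
      ring
    rw [← e] at h5
    have h6 : Real.exp p.2 / nn h p / nn g (mob h p) ≠ 0 := by positivity
    have := mul_right_cancel₀ h6 h5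
    linarith

lemma tau_tau (g h : SL(2, ℝ)) (k l : ℤ) : ∃ m : ℤ, ∀ v, tau g k (tau h l v) = tau (g * h) m v := by
  apply exists_tau
  · exact (tau_smooth g k).continuous.comp (tau_smooth h l).continuous
  · intro v; rw [bp_tau, bp_tau, mob_mul]
  · intro v
    have h1 : (tau g k (tau h l v)).2.2 = v.2.2 + (ang g (mob h (bp v)) + ang h (bp v)) +
        ((k + l : ℤ) : ℝ) * (2 * Real.pi) := by
      simp only [tau]
      push_cast
      have : bp ((mob h (bp v)).1, (mob h (bp v)).2, v.2.2 + ang h (bp v) + 2 * Real.pi * l) =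
        mob h (bp v) := rfl
      rw [this]; ring
    rw [h1, Real.cos_add_int_mul_two_pi, Real.cos_add, Real.cos_add v.2.2 (ang (g * h) (bp v)),
      (angle_mul g h (bp v)).1, (angle_mul g h (bp v)).2]
  · intro v
    have h1 : (tau g k (tau h l v)).2.2 = v.2.2 + (ang g (mob h (bp v)) + ang h (bp v)) +
        ((k + l : ℤ) : ℝ) * (2 * Real.pi) := by
      simp only [tau]
      push_cast
      have : bp ((mob h (bp v)).1, (mob h (bp v)).2, v.2.2 + ang h (bp v) + 2 * Real.pi * l) =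
        mob h (bp v) := rfl
      rw [this]; ring
    rw [h1, Real.sin_add_int_mul_two_pi, Real.sin_add, Real.sin_add v.2.2 (ang (g * h) (bp v)),
      (angle_mul g h (bp v)).1, (angle_mul g h (bp v)).2]

lemma tau_triv {g : SL(2, ℝ)} (hg : ∀ z : ℍ, g • z = z) (k : ℤ) :
    ∃ m : ℤ, ∀ v, tau g k v = rot (2 * Real.pi * m) v := by
  have hmob : ∀ p, mob g p = p := fun p => zz_inj (by rw [zz_mob, hg])
  have hmob' : mob g = id := funext hmob
  have hc : ∀ p, Real.cos (ang g p) = 1 := by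
    intro p
    have h := fderiv_mob_s g p
    rw [hmob', fderiv_id] at h
    simpa using (congrArg Prod.snd h).symm
  have hs : ∀ p, Real.sin (ang g p) = 0 := by
    intro p
    have := Real.sin_sq_add_cos_sq (ang g p)
    rw [hc] at this
    nlinarith
  obtain ⟨m, hm⟩ := exists_tau (g := 1) (f := tau g k) (tau_smooth g k).continuous
    (fun v => by rw [bp_tau, hmob, mob_one])
    (fun v => by
      have h1 : (tau g k v).2.2 = v.2.2 + ang g (bp v) + (k : ℝ) * (2 * Real.pi) := by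
        simp only [tau]; ring
      rw [h1, Real.cos_add_int_mul_two_pi, Real.cos_add, hc, hs, ang_one]; simp)
    (fun v => by
      have h1 : (tau g k v).2.2 = v.2.2 + ang g (bp v) + (k : ℝ) * (2 * Real.pi) := by
        simp only [tau]; ring
      rw [h1, Real.sin_add_int_mul_two_pi, Real.sin_add, hc, hs, ang_one]; simp)
  exact ⟨m, fun v => by rw [hm, tau_one]⟩

lemma rot_add (a b : ℝ) (v : T) : rot a (rot b v) = rot (a + b) v := by
  simp only [rot, Prod.mk.injEq, true_and]; ring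

lemma rot_zero (v : T) : rot 0 v = v := by simp [rot]

/-- the inverse of `tau g k` -/
lemma tau_inv (g : SL(2, ℝ)) (k : ℤ) : ∃ m : ℤ, (∀ v, tau g⁻¹ m (tau g k v) = v) ∧
    ∀ v, tau g k (tau g⁻¹ m v) = v := by
  obtain ⟨m, hm⟩ := tau_tau g⁻¹ g 0 k
  obtain ⟨m', hm'⟩ := tau_tau g g⁻¹ k 0
  have shift : ∀ (h : SL(2, ℝ)) (j : ℤ) (v : T), tau h j v = rot (2 * Real.pi * j) (tau h 0 v) := by
    intro h j v; simp [tau, rot]
  have h1 : ∀ v, tau g⁻¹ (-m) (tau g k v) = v := by
    intro v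
    rw [shift, hm, inv_mul_cancel, tau_one, rot_add]
    push_cast
    rw [show 2 * Real.pi * -(m : ℝ) + 2 * Real.pi * m = 0 by ring, rot_zero]
  have h2 : ∀ v, tau g k (tau g⁻¹ (-m') v) = v := by
    intro v
    rw [shift g⁻¹, ← rot_tau, hm', mul_inv_cancel, tau_one, rot_add]
    push_cast
    rw [show 2 * Real.pi * -(m' : ℝ) + 2 * Real.pi * m' = 0 by ring, rot_zero]
  have h3 : m = m' := by
    have h4 := h1 (tau g⁻¹ (-m') (0, 0, 0))
    rw [h2] at h4
    have h5 := congrArg (fun v : T => v.2.2) h4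
    simp only [tau, add_right_inj, mul_eq_mul_left_iff, Int.cast_inj, neg_inj] at h5
    rcases h5 with h5 | h5
    · exact h5
    · exact absurd h5 (by positivity)
  subst h3
  exact ⟨-m, h1, h2⟩

end H14.Flat
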